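import Pool.Agent.Q33.QR.Small

/-!
# Lucas sequences `U_{(p-1)/4}(b,-1)`, `V_{(p-1)/4}(b,-1)` modulo `p` when `b` is odd
-/

set_option autoImplicit false

namespace Pool.Agent.Results.MP_551acd_nt.LucasOddB

open Pool.Agent.Q33.QR

/-- the Lucas sequence `U_n(b,-1)` -/
def U (b : ℤ) : ℕ → ℤ
  | 0 => 0
  | 1 => 1
  | n + 2 => b * U b (n + 1) + U b n

/-- the Lucas sequence `V_n(b,-1)` -/
def V (b : ℤ) : ℕ → ℤ
  | 0 => 2
  | 1 => b
  | n + 2 => b * V b (n + 1) + V b n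

/-- `m` is nonzero and its odd part `m0` (where `m = 2 ^ k * m0`, `m0` odd) is `1` modulo `4` -/
def OddPartOne (m : ℤ) : Prop := ∃ (k : ℕ) (m0 : ℤ), m = 2 ^ k * m0 ∧ m0 % 4 = 1

theorem result (p : ℕ) [Fact p.Prime] (hp4 : p % 4 = 1) (b : ℤ) (hb : b % 2 = 1)
    (hbp : (p : ℤ) ≠ b ^ 2 + 4) (c d x y : ℤ) (hcd : c ^ 2 + d ^ 2 = (p : ℤ))
    (hxy : x ^ 2 + (b ^ 2 + 4) * y ^ 2 = (p : ℤ)) (hc : c % 4 = 1)
    (hd : OddPartOne d) (hx : OddPartOne x) (hy : OddPartOne y) :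
    (¬ 4 ∣ x * y →
      (x % 4 = 2 → (b % 8 = 1 ∨ b % 8 = 3) →
        (U b ((p - 1) / 4) : ZMod p) = (-1) ^ (d / 4) * ((2 * y : ZMod p) / x)) ∧
      (x % 4 = 2 → (b % 8 = 5 ∨ b % 8 = 7) →
        (U b ((p - 1) / 4) : ZMod p) = -(-1) ^ (d / 4) * ((2 * y : ZMod p) / x)) ∧
      (y % 4 = 2 →
        (U b ((p - 1) / 4) : ZMod p) = (2 * d * y : ZMod p) / ((c : ZMod p) * x))) ∧
    (4 ∣ x * y →
      (4 ∣ y → (V b ((p - 1) / 4) : ZMod p) = 2 * (-1) ^ ((d + y) / 4)) ∧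
      (4 ∣ x → (b % 8 = 1 ∨ b % 8 = 3) →
        (V b ((p - 1) / 4) : ZMod p) = -2 * (-1) ^ (x / 4) * ((d : ZMod p) / c)) ∧
      (4 ∣ x → (b % 8 = 5 ∨ b % 8 = 7) →
        (V b ((p - 1) / 4) : ZMod p) = 2 * (-1) ^ (x / 4) * ((d : ZMod p) / c))) := by
  obtain ⟨h, rfl⟩ : ∃ h, b = 2 * h + 1 := ⟨b / 2, by omega⟩
  obtain ⟨c1, rfl⟩ : ∃ c1, c = 4 * c1 + 1 := ⟨c / 4, by omega⟩
  have hU0 : U (2 * h + 1) 0 = 0 := rfl
  have hU1 : U (2 * h + 1) 1 = 1 := rfl
  have hU : ∀ n, U (2 * h + 1) (n + 2) = (2 * h + 1) * U (2 * h + 1) (n + 1) +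
      U (2 * h + 1) n := fun n => by rw [U]
  have hV0 : V (2 * h + 1) 0 = 2 := rfl
  have hV1 : V (2 * h + 1) 1 = 2 * h + 1 := rfl
  have hV : ∀ n, V (2 * h + 1) (n + 2) = (2 * h + 1) * V (2 * h + 1) (n + 1) +
      V (2 * h + 1) n := fun n => by rw [V]
  have hx0 : x ≠ 0 := npart_ne hx
  have hy0 : y ≠ 0 := npart_ne hy
  have hpd : (4 * c1 + 1) ^ 2 + d ^ 2 = x ^ 2 + ((2 * h + 1) ^ 2 + 4) * y ^ 2 := by
    rw [hcd, hxy]
  have mk' : ∀ (δ x y n v Y l : ℤ), d = 2 * δ → (4 * c1 + 1) ^ 2 + d ^ 2 = (p : ℤ) →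
      x ^ 2 + ((2 * h + 1) ^ 2 + 4) * y ^ 2 = (p : ℤ) → x ≠ 0 → y ≠ 0 → (l = 1 ∨ l = 2) →
      l * n = 4 * c1 + 1 + x → l * v = 2 * δ - (2 * h + 1) * y → l * Y = 2 * y →
      Data p c1 δ x y (2 * h + 1) 2 (2 * h + 1) n v Y l (U (2 * h + 1))
        (V (2 * h + 1)) := by
    intro δ x y n v Y l h1 h2 h3 h4 h5 h6 h7 h8 h9
    refine ⟨?_, ?_, h4, h5, Or.inr rfl, h6, by ring, h7, h8, h9, hU0, hU1, hU, hV0, hV1, hV⟩
    · rw [← h2, h1]
    · rw [← h3]
      ring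
  have hh8 : ((2 * h + 1) % 8 = 1 ∨ (2 * h + 1) % 8 = 3) → Even (h / 2) := by
    intro h1
    rw [Int.even_iff]
    omega
  have hh8' : ((2 * h + 1) % 8 = 5 ∨ (2 * h + 1) % 8 = 7) → Odd (h / 2) := by
    intro h1
    rw [Int.odd_iff]
    omega
  -- remainder of `(2h+1)^2`
  obtain ⟨T, hT⟩ : ∃ T : ℤ, h * (h + 1) = 2 * T := by
    obtain ⟨T, hT⟩ := Int.even_mul_succ_self h
    exact ⟨T, by rw [hT]; ring⟩
  have hsq : (2 * h + 1) ^ 2 = 8 * T + 1 := by linear_combination 4 * hT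
  rcases npart_cases hx with ⟨x1, rfl⟩ | ⟨ξ1, rfl⟩ | ⟨kx, wx, hxw⟩
  · -- `x` odd
    rcases npart_cases hy with ⟨w, rfl⟩ | ⟨w, rfl⟩ | ⟨ky, w, hyw⟩
    · exfalso
      have h1 : (p : ℤ) = 2 * (8 * x1 ^ 2 + 4 * x1 + 3 + 40 * w ^ 2 + 20 * w +
        4 * T * (4 * w + 1) ^ 2) := by
        rw [← hxy, hsq]
        ring
      omega
    · -- `2 ∥ y`
      have h4 : ¬ 4 ∣ (4 * x1 + 1) * (2 * (4 * w + 1)) := by
        have : (4 * x1 + 1) * (2 * (4 * w + 1)) = 4 * (2 * x1 * (4 * w + 1) + 2 * w) + 2 := by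
          ring
        omega
      rcases npart_cases hd with ⟨z, rfl⟩ | ⟨δ1, rfl⟩ | ⟨kd, z, hdz⟩
      · exfalso
        rw [hsq] at hpd
        ring_nf at hpd
        omega
      · have hN : Odd ((p - 1) / 4) := par_odd hcd
        have D := mk' (4 * δ1 + 1) (4 * x1 + 1) (2 * (4 * w + 1)) (2 * (c1 + x1) + 1)
          (2 * (2 * δ1 - 4 * h * w - h - 2 * w)) (2 * (4 * w + 1)) 2 rfl hcd hxy hx0 hy0
          (Or.inr rfl) (by ring) (by ring) (by ring)
        have hpN := data_norm p D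
        have hE := case_E1 p (prime_of_norm (Fact.out) hpN) hpN (x1 := x1) (h := h)
          (w := w) (data_pY p D) (by linear_combination hpd)
        have hE2 := hE.trans (cast4 (b := 2 * 1) 0 (by ring))
        obtain ⟨h1, h2⟩ := final_oe p D hN hE2
        refine ⟨fun _ => ⟨fun h => by omega, fun h => by omega, fun _ => ?_⟩,
          fun h => absurd h h4⟩
        rw [h2, zpow_one]
        push_cast
        ring
      · exfalso
        rw [hdz, hsq] at hpd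
        obtain ⟨r, hr⟩ : ∃ r : ℤ, r = 2 ^ kd * (4 * z + 1) := ⟨_, rfl⟩
        rw [← hr] at hpd
        ring_nf at hpd
        omega
    · -- `4 ∣ y`
      obtain ⟨y1, hy1⟩ : ∃ y1 : ℤ, y1 = 2 ^ ky * (4 * w + 1) := ⟨_, rfl⟩
      rw [← hy1] at hyw
      subst hyw
      obtain ⟨d1, rfl⟩ : ∃ d1, d = 4 * d1 := by
        rcases npart_cases hd with ⟨z, rfl⟩ | ⟨δ1, rfl⟩ | ⟨kd, z, hdz⟩
        · exfalso
          rw [hsq] at hpd
          ring_nf at hpd
          omega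
        · exfalso
          rw [hsq] at hpd
          ring_nf at hpd
          omega
        · exact ⟨_, hdz⟩
      have e4 : 4 * d1 = 2 * (2 * d1) := by ring
      have hN : Even ((p - 1) / 4) := by
        rw [e4] at hcd
        exact par_even hcd
      have D := mk' (2 * d1) (4 * x1 + 1) (4 * y1) (2 * (c1 + x1) + 1)
        (2 * (d1 - (2 * h + 1) * y1)) (4 * y1) 2 e4 hcd hxy hx0 hy0 (Or.inr rfl)
        (by ring) (by ring) (by ring)
      have hpN := data_norm p D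
      have hE := case_E2 p (prime_of_norm (Fact.out) hpN) hpN (x1 := x1) (y2 := y1)
        (h := h) (w := w) (s := ky + 2) (by omega) (by rw [hy1]; ring)
        (data_pY p D) (by linear_combination hpd)
      obtain ⟨h1, h2⟩ := final_ee p D hN hE
      have h4 : (4 : ℤ) ∣ (4 * x1 + 1) * (4 * y1) := ⟨(4 * x1 + 1) * y1, by ring⟩
      refine ⟨fun h => absurd h4 h, fun _ => ⟨fun _ => ?_, fun h => by omega, fun h => by omega⟩⟩
      rw [h1]
      have e1 : (4 * d1 + 4 * y1) / 4 = y1 + d1 := by omega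
      rw [e1]
  · -- `2 ∥ x`
    rcases npart_cases hy with ⟨w, rfl⟩ | ⟨w, rfl⟩ | ⟨ky, w, hyw⟩
    · have h4 : ¬ 4 ∣ (2 * (4 * ξ1 + 1)) * (4 * w + 1) := by
        have : (2 * (4 * ξ1 + 1)) * (4 * w + 1) = 4 * (2 * ξ1 * (4 * w + 1) + 2 * w) + 2 := by
          ring
        omega
      obtain ⟨d1, rfl⟩ : ∃ d1, d = 4 * d1 := by
        rcases npart_cases hd with ⟨z, rfl⟩ | ⟨δ1, rfl⟩ | ⟨kd, z, hdz⟩
        · exfalso
          rw [hsq] at hpd
          ring_nf at hpd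
          omega
        · exfalso
          rw [hsq] at hpd
          ring_nf at hpd
          omega
        · exact ⟨_, hdz⟩
      have e4 : 4 * d1 = 2 * (2 * d1) := by ring
      have hN : Even ((p - 1) / 4) := by
        rw [e4] at hcd
        exact par_even hcd
      have D := mk' (2 * d1) (2 * (4 * ξ1 + 1)) (4 * w + 1) (2 * (2 * c1 + (4 * ξ1 + 1)) + 1)
        (2 * (2 * d1) - (2 * h + 1) * (4 * w + 1)) (2 * (4 * w + 1)) 1 e4 hcd hxy hx0 hy0
        (Or.inl rfl) (by ring) (by ring) (by ring)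
      have hpN := data_norm p D
      have hE := case_D2 p (prime_of_norm (Fact.out) hpN) hpN (ξ1 := ξ1) (h := h)
        (w := w) (data_pY p D) (by linear_combination hpd)
      have hE2 := hE.trans (cast4 (b := 1 + 2 * (d1 + h / 2)) 0 (by ring))
      obtain ⟨h1, h2⟩ := final_eo p D hN hE2
      have e1 : 4 * d1 / 4 = d1 := by omega
      refine ⟨fun _ => ⟨fun _ h5 => ?_, fun _ h5 => ?_, fun h => by omega⟩,
        fun h => absurd h h4⟩
      · rw [h2, e1]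
        have hs : ((-1 : ZMod p)) ^ (d1 + h / 2) = (-1) ^ d1 := by
          apply sgn
          have : d1 + h / 2 - d1 = h / 2 := by ring
          rw [this]
          exact hh8 h5
        rw [hs]
        push_cast
        ring
      · rw [h2, e1]
        have hs : ((-1 : ZMod p)) ^ (d1 + h / 2) = (-1) ^ (d1 + 1) := by
          apply sgn
          have : d1 + h / 2 - (d1 + 1) = h / 2 - 1 := by ring
          rw [this]
          exact (hh8' h5).sub_odd odd_one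
        rw [hs, zpow_add₀ (neg_ne_zero.2 one_ne_zero), zpow_one]
        push_cast
        ring
    · exfalso
      have h1 : (p : ℤ) = 2 * (2 * (4 * ξ1 + 1) ^ 2 +
          ((2 * h + 1) ^ 2 + 4) * (2 * (4 * w + 1) ^ 2)) := by
        rw [← hxy]
        ring
      omega
    · exfalso
      have h1 : (p : ℤ) = 2 * (2 * (4 * ξ1 + 1) ^ 2 + ((2 * h + 1) ^ 2 + 4) *
          (8 * (2 ^ ky * (4 * w + 1)) ^ 2)) := by
        rw [← hxy, hyw]
        ring
      omega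
  · -- `4 ∣ x`
    obtain ⟨ξ1, hξ1⟩ : ∃ ξ1 : ℤ, ξ1 = 2 ^ kx * (4 * wx + 1) := ⟨_, rfl⟩
    rw [← hξ1] at hxw
    subst hxw
    rcases npart_cases hy with ⟨w, rfl⟩ | ⟨w, rfl⟩ | ⟨ky, w, hyw⟩
    · have h4 : (4 : ℤ) ∣ (4 * ξ1) * (4 * w + 1) := ⟨ξ1 * (4 * w + 1), by ring⟩
      rcases npart_cases hd with ⟨z, rfl⟩ | ⟨δ1, rfl⟩ | ⟨kd, z, hdz⟩
      · exfalso
        rw [hsq] at hpd
        ring_nf at hpd
        omega
      · have hN : Odd ((p - 1) / 4) := par_odd hcd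
        have D := mk' (4 * δ1 + 1) (4 * ξ1) (4 * w + 1) (2 * (2 * c1 + 2 * ξ1) + 1)
          (2 * (4 * δ1 + 1) - (2 * h + 1) * (4 * w + 1)) (2 * (4 * w + 1)) 1 rfl hcd hxy hx0 hy0
          (Or.inl rfl) (by ring) (by ring) (by ring)
        have hpN := data_norm p D
        have hE := case_D1 p (prime_of_norm (Fact.out) hpN) hpN (ξ1 := ξ1) (h := h)
          (w := w) (data_pY p D) (by linear_combination hpd)
        have hE2 := hE.trans (cast4 (b := 1 + 2 * (1 + ξ1 + h / 2)) 0 (by ring))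
        obtain ⟨h1, h2⟩ := final_oo p D hN hE2
        have e2 : 4 * ξ1 / 4 = ξ1 := by omega
        refine ⟨fun h => absurd h4 h,
          fun _ => ⟨fun h => by omega, fun _ h5 => ?_, fun _ h5 => ?_⟩⟩
        · rw [h1, e2]
          have hs : ((-1 : ZMod p)) ^ (1 + ξ1 + h / 2) = (-1) ^ (ξ1 + 1) := by
            apply sgn
            have : 1 + ξ1 + h / 2 - (ξ1 + 1) = h / 2 := by ring
            rw [this]
            exact hh8 h5
          rw [hs, zpow_add₀ (neg_ne_zero.2 one_ne_zero), zpow_one]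
          push_cast
          ring
        · rw [h1, e2]
          have hs : ((-1 : ZMod p)) ^ (1 + ξ1 + h / 2) = (-1) ^ ξ1 := by
            apply sgn
            have : 1 + ξ1 + h / 2 - ξ1 = h / 2 + 1 := by ring
            rw [this]
            exact (hh8' h5).add_odd odd_one
          rw [hs]
      · exfalso
        rw [hdz, hsq] at hpd
        obtain ⟨r, hr⟩ : ∃ r : ℤ, r = 2 ^ kd * (4 * z + 1) := ⟨_, rfl⟩
        rw [← hr] at hpd
        ring_nf at hpd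
        omega
    · exfalso
      have h1 : (p : ℤ) = 2 * (8 * ξ1 ^ 2 + ((2 * h + 1) ^ 2 + 4) * (2 * (4 * w + 1) ^ 2)) := by
        rw [← hxy]
        ring
      omega
    · exfalso
      have h1 : (p : ℤ) = 2 * (8 * ξ1 ^ 2 + ((2 * h + 1) ^ 2 + 4) *
          (8 * (2 ^ ky * (4 * w + 1)) ^ 2)) := by
        rw [← hxy, hyw]
        ring
      omega

end Pool.Agent.Results.MP_551acd_nt.LucasOddB
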